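import Pool.Agent.Q57.CX.Top

/-!
# The Cox rings of the toroidal models of covers of products of projective spaces

Let `F i` be a form of degree `d i` in `n i + 1` variables whose zero set in the projective
`n i`-space is a smooth hypersurface, and let `H i` be the cyclic hypersurface `w ^ (d i) = F i` in
the projective `(n i + 1)`-space. Let `K` be the function field of a quotient
`Y = (H 1 × ... × H r) / G`, where `G` is any group of diagonal automorphisms
`w i ↦ ζ i * w i`, `ζ i ^ (d i) = 1`. Equivalently, `K` is generated by the affine coordinates
`x i j / x i 0` of the product of the projective `n i`-spaces and by roots `z j`,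
`z j ^ (m j) = ∏ i, (F i (x i) / x i 0 ^ (d i)) ^ (a j i)`, where `m j` divides `a j i * d i`: the
abelian covers of the product of the projective spaces which are branched along the hypersurfaces
`F i = 0` of the factors. There is no condition on the dimensions and the degrees.

A prime divisor `P` over `Y` (a divisorial place of `K`) has the vector `multiplicities F d x P` of the
multiplicities `v i` of the hypersurfaces along `P`. The vectors `v ≠ 0` of nonnegative integers with
`m j ∣ ∑ i, a j i * v i` for all `j` are the `Admissible` ones: the nonzero points, in the positive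
orthant, of the lattice of the toroidal variety `Y`.

**The varieties.** The toroidal modifications `X` of `Y` are given by the subdivisions (fans) of the
positive orthant into rational polyhedral cones; `fan` is the set of the maximal cones, each given by
a finite set of admissible generators which span the space. The canonical divisor of `X` is arbitrary.
Klt Calabi-Yau pairs `(X, Δ)`: for example, let `Y i` be a cyclic cover of the projective `n i`-space
of degree `e i` which is branched along `F i = 0`, with `d i * (e i - 1) ≤ (n i + 1) * e i`; then
`- K` of the product of the `Y i` is nef, and `K_X + Δ ≡ 0` for suitable boundaries `Δ`, which are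
toroidal or contain general members of multiples of `- K`. If the inequalities are equalities then
`K ~ 0` for the `Y i`, for their product, for the quotients `Y` of the product by the groups of
diagonal automorphisms which preserve the holomorphic volume form, and for the crepant toroidal
partial resolutions `X` of `Y`; these have many small modifications (flops).

**The divisors.** `D 1, ..., D p` are toroidal `ℚ`-Cartier divisors on `X`: sums of multiples `β i t`
of the hyperplane classes of the factors and of the prime divisors of the boundary of `X`. The
coefficient of the pullback of `D i` at a prime divisor `P` over `X` is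
`coefficient F d x (c i) (β i) P = c i v + ∑ t, β i t * h t`, where `v` is the vector of the
multiplicities, `h t` is minus the minimal order at `P` of the homogeneous coordinates of the `t`-th
factor, and `- c i v = ∑ k, u σ i k * v k` on the cone `σ`. One may take divisors `D i` which generate
all toroidal `ℚ`-Cartier divisors on `X`. If all `n i ≥ 3` then every divisor on `X` is, up to
`ℚ`-linear equivalence, toroidal (Lefschetz; this remark is not used and not proved here).

**The theorem.** The ring `⊕ H⁰(X, ∑ i, μ i * D i)`, the sum over all `μ` in `ℤ ^ p`, is a finitely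
generated `ℂ`-algebra. If the `D i` generate the divisor classes of `X` up to torsion and multiples
(for instance if all `n i ≥ 3` and `X` is `ℚ`-factorial), this is the Cox ring of `X`, so `X` is a
Mori dream space (Hu, Keel): the nef cone of `X` is rational polyhedral and generated by
semiample divisors, the movable cone is rational polyhedral, it is the union of the finitely many nef
cones of the small `ℚ`-factorial modifications of `X`, and there are finitely many contractions and
fibre space structures. In particular `Nef^e(X) = Nef(X)` is rational polyhedral. The group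
`Aut(X, Δ)` acts on it by a finite group (it acts on a lattice and preserves a rational polyhedral
cone of the full dimension without lines), and it has a rational polyhedral fundamental domain: the
cone conjecture holds for all klt Calabi-Yau pairs `(X, Δ)` with these `X`. These consequences are
not in the Lean statement. There is no condition on `K_X`: the varieties `X` with `K_X ~ 0` are
included, which are not of Fano type, and for which the minimal model program (Birkar, Cascini,
Hacon, McKernan) gives the finite generation only for the subrings of the combinations in a cone of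
big divisors. If not all `n i ≥ 3`, for instance for `K3` surfaces and for covers of products of
lines, where the full Cox ring may not be finitely generated, the theorem is about the subring of
the toroidal divisors.
-/

set_option autoImplicit false

open FF MvPolynomial Pool.Agent.W602.GT

namespace Pool.Agent.Results.MP_9f99c5_ag.CoxRings

/-- The form `F` has no singular zeros: its partial derivatives have no common zero but `0`. -/
def Smooth {n : ℕ} (F : MvPolynomial (Fin (n + 1)) ℂ) : Prop :=
  ∀ x : Fin (n + 1) → ℂ, x ≠ 0 → ∃ l, eval x (pderiv l F) ≠ 0

section fans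

variable {r R : ℕ}

/-- The multiplicities which satisfy the divisibility conditions. -/
def Admissible (m : Fin R → ℕ) (a : Fin R → Fin r → ℕ) (v : Fin r → ℕ) : Prop :=
  v ≠ 0 ∧ ∀ j, m j ∣ ∑ i, a j i * v i

/-- The vector `v` is in the cone which is generated by the vectors in `σ`. -/
def InCone (σ : Finset (Fin r → ℕ)) (v : Fin r → ℕ) : Prop :=
  ∃ w : (Fin r → ℕ) → ℚ, (∀ s, 0 ≤ w s) ∧ ∀ k, (v k : ℚ) = ∑ s ∈ σ, w s * s k

/-- `fan` is a finite set of cones, each generated by a finite set of admissible vectors which span
the whole space, which cover all admissible vectors. -/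
structure IsFan (m : Fin R → ℕ) (a : Fin R → Fin r → ℕ) (fan : Finset (Finset (Fin r → ℕ))) :
    Prop where
  adm : ∀ σ ∈ fan, ∀ s ∈ σ, Admissible m a s
  full : ∀ σ ∈ fan, ∀ f : Fin r → ℚ, ∃ q : (Fin r → ℕ) → ℚ, ∀ k, f k = ∑ s ∈ σ, q s * s k
  cover : ∀ v, Admissible m a v → ∃ σ ∈ fan, InCone σ v

end fans

section places

variable {r : ℕ} {n : Fin r → ℕ} {K : Type} [Field K] [Algebra ℂ K]

/-- The affine coordinates of the product of the projective spaces. -/
noncomputable def affine (x : ∀ i, Fin (n i + 1) → K) (b : (i : Fin r) × Fin (n i)) : K :=
  x b.1 b.2.succ / x b.1 0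

/-- The minimal order at `P` of the homogeneous coordinates `y`. -/
noncomputable def minimalOrder {n : ℕ} (y : Fin (n + 1) → K) (P : Place ℂ K) : ℤ :=
  Finset.univ.inf' Finset.univ_nonempty fun j => P.ord (y j)

/-- The multiplicities of the hypersurfaces `F i = 0` along the prime divisor `P`; the `x i j` are the
homogeneous coordinates of the `i`-th factor, which are divided by one of minimal order at `P`. -/
noncomputable def multiplicities (F : ∀ i, MvPolynomial (Fin (n i + 1)) ℂ) (d : Fin r → ℕ)
    (x : ∀ i, Fin (n i + 1) → K) (P : Place ℂ K) (i : Fin r) : ℕ :=
  (P.ord (aeval (x i) (F i)) - d i * minimalOrder (x i) P).toNat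

/-- The coefficient at the prime divisor `P` of the divisor with the function `c` of the
multiplicities and the degrees `β t`: it is `c v` plus `β t` times the coefficient at `P` of the
hyperplane class of the `t`-th factor, which is represented by the divisor with the coefficients
`- minimalOrder (x t) P` (its sections are the linear forms in the `x t j`). -/
noncomputable def coefficient (F : ∀ i, MvPolynomial (Fin (n i + 1)) ℂ) (d : Fin r → ℕ)
    (x : ∀ i, Fin (n i + 1) → K) (c : (Fin r → ℕ) → ℚ) (β : Fin r → ℤ) (P : Place ℂ K) : ℚ :=
  c (multiplicities F d x P) - ∑ t, (β t : ℚ) * minimalOrder (x t) P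

end places

section sections

variable {K : Type} [Field K] [Algebra ℂ K] {p : ℕ} (N : ℕ) (δ : Fin p → Place ℂ K → ℚ)

/-- `f` is a section of `∑ i, μ i * D i`: its order at every prime divisor `P` over `X` (every
divisorial place `P` of `K`) is at least minus the coefficient `∑ i, μ i * δ i P` of the pullback of
`∑ i, μ i * D i`, or `f = 0`. -/
def IsSection (μ : Fin p → ℤ) (f : K) : Prop :=
  ∀ P : Place ℂ K, Divisorial N P → f = 0 ∨ - ∑ i, (μ i : ℚ) * δ i P ≤ P.ord f

/-- The Cox ring: the `ℤ ^ p`-graded ring of the sections of all integral combinations of the `D i`.
It is the subring of the group algebra of `ℤ ^ p` over `K` which consists of the elements whose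
coefficient at each `μ` is a section of `∑ i, μ i * D i`. -/
def coxRing : Subalgebra ℂ (AddMonoidAlgebra K (Fin p → ℤ)) where
  carrier := {f | ∀ μ, IsSection N δ μ (f.coeff μ)}
  mul_mem' := (Pool.Agent.Q57.CX.coxRing N δ).mul_mem'
  add_mem' := (Pool.Agent.Q57.CX.coxRing N δ).add_mem'
  algebraMap_mem' := (Pool.Agent.Q57.CX.coxRing N δ).algebraMap_mem'

end sections

/-- **The Cox rings are finitely generated.** Let `K` be the function field of an abelian cover `Y` of
the product of the projective `n i`-spaces which is branched along smooth hypersurfaces `F i = 0` of
the factors, `X` the toroidal modification of `Y` which is given by `fan`, and `D i`, `i < p`,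
toroidal `ℚ`-Cartier divisors on `X` with the degrees `β i t` and the coefficients `c i`. Then the
`ℤ ^ p`-graded ring of the sections of all integral combinations `∑ i, μ i * D i` is a finitely
generated `ℂ`-algebra. -/
theorem result (r N R p : ℕ) (n d : Fin r → ℕ) (hr : 1 ≤ r) (hn : ∀ i, 1 ≤ n i)
    (hd : ∀ i, 1 ≤ d i) (hN : N = ∑ i, n i)
    (F : ∀ i, MvPolynomial (Fin (n i + 1)) ℂ) (hF : ∀ i, (F i).IsHomogeneous (d i))
    (hs : ∀ i, Smooth (F i)) (m : Fin R → ℕ) (hm : ∀ j, 1 ≤ m j) (a : Fin R → Fin r → ℕ)
    (hdiv : ∀ j i, m j ∣ a j i * d i)
    (K : Type) [Field K] [Algebra ℂ K] (x : ∀ i, Fin (n i + 1) → K) (hx0 : ∀ i, x i 0 ≠ 0)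
    (hbas : IsTranscendenceBasis ℂ (affine x)) (z : Fin R → K)
    (hz : ∀ j, z j ^ m j = ∏ i, (aeval (x i) (F i) / x i 0 ^ d i) ^ a j i)
    (hgen : IntermediateField.adjoin ℂ (Set.range (affine x) ∪ Set.range z) = ⊤)
    (fan : Finset (Finset (Fin r → ℕ))) (hfan : IsFan m a fan)
    (c : Fin p → (Fin r → ℕ) → ℚ) (hc0 : ∀ i, c i 0 = 0) (β : Fin p → Fin r → ℤ)
    (u : Finset (Fin r → ℕ) → Fin p → Fin r → ℚ)
    (hlin : ∀ σ ∈ fan, ∀ i v, Admissible m a v → InCone σ v → - c i v = ∑ k, u σ i k * v k)
    (δ : Fin p → Place ℂ K → ℚ) (hδ : ∀ i P, δ i P = coefficient F d x (c i) (β i) P) :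
    (coxRing N δ).FG :=
  Pool.Agent.Q57.CX.main_cox (N := N) hr hn hN hd hF hs hx0 hbas hm hdiv hz hgen (S := fan)
    ⟨hfan.adm, hfan.full, hfan.cover⟩ hc0 (u := u) hlin (β := β) hδ

end Pool.Agent.Results.MP_9f99c5_ag.CoxRings
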