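import Pool.Agent.Q47.CY.Br

/-!
# Nef and effective classes of klt Calabi–Yau pairs on toric bundles over torus quotients

Let `X = V / Γ` be a projective quotient of a complex torus of any dimension by any finite group
(reflections are allowed), and let `Y → X` be a toric bundle: a locally trivial bundle whose fibre is
a smooth projective toric variety, twisted by arbitrary line bundles `c_i` on `X`. Let `Δ` be any
effective divisor with real coefficients on `Y` such that `K_Y + Δ` is numerically trivial and such
that for one fibre `Y_v` of `Y → X` the pair `(Y_v, Δ_v)` is klt.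

The theorem says that the cone `Nef^e(Y)` of the nef classes in the cone spanned by the classes of
line bundles with sections is the convex cone `Nef^+(Y)` spanned by the rational nef classes. So each
rational nef class is the class of an effective divisor with rational coefficients (the conjecture of
generalised nonvanishing), and each class in `Nef^e(Y)` is a combination of rational nef classes.

The pair `(Y, Δ)` is needed: if the nef cone of `X` is round and `Y` is the projectivisation of
`O ⊕ M` with `M` of indefinite Chern form `h`, then the classes `D + x` such that `x` and `x + h` are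
nef have irrational extremal rays, and these classes are big. For a klt Calabi–Yau pair the forms
`∑_i u_{ik} c_1(c_i)` vanish in the directions which are parallel to all mirrors of the reflections
in `Γ`, so that they only matter on finitely many vectors, one for each reflection.

`LinEquiv` and `IsSection` are defined in `Pool.Agent.Q47.TB.Defs`; `Bundle`, `Bdry` and
`Bdry.IsKltAt` in `Pool.Agent.Q47.CY.Def`; `IsTQ`, `NY`, `D`, `pb`, `hull`, `intY`, `effY`, `nefY`
and `IsCY` in `Pool.Agent.Q47.CY.St`; `LineBundle` in `Pool.Agent.W594.SYZ.Defs2`; `IsChernForm` and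
`IsPositiveForm` in `Pool.Agent.W594.SYZ.TQDefs`; `N1`, `form` and `nefCone` in
`Pool.Agent.Y167.Stm`. In the absolute case the linear subspace `E` of `V` of the general
definitions is `V` itself, embedded by the identity map.
-/

set_option autoImplicit false

namespace Pool.Agent.Results.MP_9f99c5_ag.RationalNefClasses

open Pool.Agent.W594.SYZ2 Pool.Agent.TH735.AQ
open Pool.Agent.Y167 (AffGrp rel_abs)
open Q47.CY (Bundle Bdry)
open Q47.CP

variable {V : Type*} [NormedAddCommGroup V] [NormedSpace ℂ V] {Γ : AffGrp V}
  {ι : Type*} [Fintype ι] {n r : ℕ}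

/-- The space `N^1(Y)`. -/
abbrev NS (Y : Bundle Γ ι n) : Type _ := NY Y (LinearMap.id : V →ₗ[ℂ] V)

/-- The cone `Nef^e(Y)` of the nef and effective classes. -/
def nefEff (Y : Bundle Γ ι n) : Set (NS Y) := nefY Y LinearMap.id ∩ effY Y LinearMap.id

/-- The cone `Nef^+(Y)`: the convex cone spanned by the classes of the nef line bundles. -/
def nefPlus (Y : Bundle Γ ι n) : Set (NS Y) :=
  hull (intY Y LinearMap.id ∩ nefY Y LinearMap.id)

/-- Let `X = V / Γ` be a projective torus quotient, `Y → X` a toric bundle, and `Δ` an effective
divisor with real coefficients on `Y` such that `K_Y + Δ` is numerically trivial and such that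
`(Y_v, Δ_v)` is klt for one `v ∈ V`. Then `Nef^e(Y) = Nef^+(Y)`. -/
theorem result [FiniteDimensional ℂ V] (Γ : AffGrp V) (hΓ : IsTQ Γ)
    (hproj : ∃ (L : LineBundle Γ) (H : V → V → ℂ), IsChernForm L H ∧ IsPositiveForm H)
    (Y : Bundle Γ ι n) (Δ : Bdry Y r) (hklt : ∃ v, Δ.IsKltAt v) (hCY : IsCY Δ LinearMap.id) :
    nefEff Y = nefPlus Y := by
  obtain ⟨L, H, hc, hp⟩ := hproj
  obtain ⟨v, hv⟩ := hklt
  have R := rel_abs (isTQ_iff.1 hΓ) hc hp
  have h0 : (Y.S).Nonempty := ⟨∅, Y.fan.empty_mem⟩
  exact plus R Δ hv hCY h0 nefY_eq

end Pool.Agent.Results.MP_9f99c5_ag.RationalNefClasses
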